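import Mathlib
import Pool.Agent.W4.CF.Stms

/-!
# CF-TAU: elements of an ideal of nearly minimal norm with bounded conjugates
-/

set_option autoImplicit false

namespace Pool.Agent.W230.CF

open NumberField Finset Pool.Agent.W4.CF

/-- the norm is the product of the conjugates -/
lemma nrm_prod (K : Type) [Field K] [NumberField K] (τ : 𝓞 K) :
    ((Algebra.norm ℤ τ).natAbs : ℝ) = ∏ σ : K →+* ℂ, ‖σ (τ : K)‖ := by
  have h1 : algebraMap ℚ ℂ (Algebra.norm ℚ (τ : K)) = ∏ σ : K →ₐ[ℚ] ℂ, σ (τ : K) :=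
    Algebra.norm_eq_prod_embeddings ℚ ℂ (τ : K)
  have h2 : Algebra.norm ℚ (τ : K) = ((Algebra.norm ℤ τ : ℤ) : ℚ) := by
    rw [← Algebra.coe_norm_int]
  rw [h2] at h1
  have h3 : ∏ σ : K →ₐ[ℚ] ℂ, σ (τ : K) = ∏ σ : K →+* ℂ, σ (τ : K) := by
    refine (Fintype.prod_equiv (RingHom.equivRatAlgHom K ℂ) _ _ fun σ => ?_).symm
    rfl
  rw [h3] at h1
  have h4 := congrArg (fun z : ℂ => ‖z‖) h1
  simp only [norm_prod] at h4
  rw [← h4, Nat.cast_natAbs]
  simp [Int.cast_abs]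

lemma floor_close {x y : ℝ} (h : ⌊x⌋ = ⌊y⌋) : |x - y| ≤ 1 := by
  have h1 := Int.abs_sub_lt_one_of_floor_eq_floor h
  exact h1.le

theorem t_TAU : S_TAU := by
  intro K _ _ c ε hc hε
  classical
  set d : ℕ := Fintype.card (K →+* ℂ) with hd
  have hd1 : 1 ≤ d := by
    rw [hd, NumberField.Embeddings.card K ℂ]
    exact Module.finrank_pos
  set J : ℕ := ⌈4 * c⌉₊ + 5 with hJ
  have hJc : 4 * c < J := by
    have := Nat.le_ceil (4 * c)
    rw [hJ]
    push_cast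
    linarith
  have hJ5 : (5 : ℝ) ≤ J := by
    rw [hJ]
    push_cast
    have : (0 : ℝ) ≤ ⌈4 * c⌉₊ := Nat.cast_nonneg _
    linarith
  have hJ0 : (0 : ℝ) < J := by linarith
  set ε' : ℝ := ε / d with hε'
  have hd0 : (0 : ℝ) < d := by exact_mod_cast hd1
  have hε'0 : 0 < ε' := div_pos hε hd0
  have hl2 : 0 < Real.log 2 := Real.log_pos (by norm_num)
  set C' : ℝ := 2 * d / (ε' * Real.log 2) + 5 with hC'
  have hC'0 : 0 < C' := by positivity
  refine ⟨(C' * (2 * J + 1) ^ 2) ^ d, by positivity, fun I hI T hT s hs => ?_⟩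
  have hT0 : 0 < T := by linarith
  have hlogT : 0 ≤ Real.log T := Real.log_nonneg hT
  -- bounds of the conjugates
  have hN0 : (0 : ℝ) < Ideal.absNorm I := by
    have : Ideal.absNorm I ≠ 0 := by
      rw [Ne, Ideal.absNorm_eq_zero_iff]
      exact hI
    exact_mod_cast Nat.pos_of_ne_zero this
  have hpos : ∀ τ ∈ s, ∀ σ : K →+* ℂ, 0 < ‖σ (τ : K)‖ := by
    intro τ hτ σ
    have h0 := (hs τ hτ).2.1
    refine norm_pos_iff.2 ((map_ne_zero σ).2 ?_)
    exact fun h => h0 (by exact_mod_cast h)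
  have hone : ∀ τ : 𝓞 K, τ ≠ 0 → (1 : ℝ) ≤ ∏ σ : K →+* ℂ, ‖σ (τ : K)‖ := by
    intro τ h0
    rw [← nrm_prod K τ]
    have : (Algebra.norm ℤ τ).natAbs ≠ 0 := by
      rw [Ne, Int.natAbs_eq_zero, Algebra.norm_eq_zero_iff]
      exact h0
    exact_mod_cast Nat.one_le_iff_ne_zero.2 this
  have hlow : ∀ τ ∈ s, ∀ σ : K →+* ℂ, -(d * Real.log T) ≤ Real.log ‖σ (τ : K)‖ := by
    intro τ hτ σ
    have h1 := hone τ (hs τ hτ).2.1
    have h2 : 0 ≤ Real.log (∏ σ : K →+* ℂ, ‖σ (τ : K)‖) := Real.log_nonneg h1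
    rw [Real.log_prod (fun σ _ => (hpos τ hτ σ).ne'), ← add_sum_erase _ _ (mem_univ σ)] at h2
    have h3 : ∑ σ' ∈ univ.erase σ, Real.log ‖σ' (τ : K)‖ ≤ ∑ _σ' ∈ univ.erase σ, Real.log T :=
      sum_le_sum fun σ' _ => Real.log_le_log (hpos τ hτ σ') ((hs τ hτ).2.2.2 σ')
    rw [sum_const, nsmul_eq_mul] at h3
    have h4 : ((univ.erase σ).card : ℝ) ≤ d := by
      exact_mod_cast card_le_card (erase_subset σ univ)
    have h5 := mul_le_mul_of_nonneg_right h4 hlogT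
    linarith
  have hup : ∀ τ ∈ s, ∀ σ : K →+* ℂ, Real.log ‖σ (τ : K)‖ ≤ Real.log T :=
    fun τ hτ σ => Real.log_le_log (hpos τ hτ σ) ((hs τ hτ).2.2.2 σ)
  -- the map to the cells
  set jj : 𝓞 K → (K →+* ℂ) → ℤ := fun τ σ => ⌊Real.log ‖σ (τ : K)‖ / Real.log 2⌋ with hjj
  set sc : ℤ → ℝ := fun j => J / (2 : ℝ) ^ ((j : ℝ) + 1) with hsc
  have hsc0 : ∀ j, 0 < sc j := fun j => by simp only [hsc]; positivity
  have hj1 : ∀ τ ∈ s, ∀ σ : K →+* ℂ, (2 : ℝ) ^ ((jj τ σ : ℤ) : ℝ) ≤ ‖σ (τ : K)‖ := by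
    intro τ hτ σ
    have h1 : ((jj τ σ : ℤ) : ℝ) ≤ Real.log ‖σ (τ : K)‖ / Real.log 2 := Int.floor_le _
    rw [le_div_iff₀ hl2] at h1
    rw [Real.rpow_def_of_pos (by norm_num), ← Real.le_log_iff_exp_le (hpos τ hτ σ)]
    linarith
  have hj2 : ∀ τ ∈ s, ∀ σ : K →+* ℂ, ‖σ (τ : K)‖ ≤ (2 : ℝ) ^ (((jj τ σ : ℤ) : ℝ) + 1) := by
    intro τ hτ σ
    have h1 : Real.log ‖σ (τ : K)‖ / Real.log 2 < ((jj τ σ : ℤ) : ℝ) + 1 := Int.lt_floor_add_one _
    rw [div_lt_iff₀ hl2] at h1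
    rw [Real.rpow_def_of_pos (by norm_num), ← Real.log_le_iff_le_exp (hpos τ hτ σ)]
    linarith
  set Φ : 𝓞 K → (K →+* ℂ) → ℤ × ℤ × ℤ := fun τ σ =>
    (jj τ σ, ⌊(σ (τ : K)).re * sc (jj τ σ)⌋, ⌊(σ (τ : K)).im * sc (jj τ σ)⌋) with hΦ
  set B : ℤ := ⌈d * (Real.log T / Real.log 2)⌉ + 1 with hB
  have hL0 : 0 ≤ Real.log T / Real.log 2 := div_nonneg hlogT hl2.le
  have hBn : (0 : ℤ) ≤ B := by
    have : 0 ≤ ⌈d * (Real.log T / Real.log 2)⌉ := Int.ceil_nonneg (mul_nonneg hd0.le hL0)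
    omega
  set S : Finset (ℤ × ℤ × ℤ) := Icc (-B) B ×ˢ Icc (-(J : ℤ)) J ×ˢ Icc (-(J : ℤ)) J with hS
  have hcell : ∀ (x : ℝ) (j : ℤ), |x| ≤ (2 : ℝ) ^ ((j : ℝ) + 1) →
      ⌊x * sc j⌋ ∈ Icc (-(J : ℤ)) J := by
    intro x j hx
    have h2 : (0 : ℝ) < (2 : ℝ) ^ ((j : ℝ) + 1) := by positivity
    have h1 : |x * sc j| ≤ J := by
      rw [abs_mul, abs_of_pos (hsc0 j)]
      simp only [hsc]
      rw [mul_div_assoc', div_le_iff₀ h2, mul_comm]
      exact mul_le_mul_of_nonneg_left hx hJ0.le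
    rw [abs_le] at h1
    rw [mem_Icc]
    constructor
    · rw [Int.le_floor]
      push_cast
      exact h1.1
    · have h3 : ⌊x * sc j⌋ ≤ ⌊((J : ℤ) : ℝ)⌋ := Int.floor_le_floor (by push_cast; exact h1.2)
      rwa [Int.floor_intCast] at h3
  have hmap : ∀ τ ∈ s, Φ τ ∈ Fintype.piFinset (fun _ : K →+* ℂ => S) := by
    intro τ hτ
    rw [Fintype.mem_piFinset]
    intro σ
    rw [hS, mem_product, mem_product]
    refine ⟨?_, hcell _ _ ?_, hcell _ _ ?_⟩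
    · show jj τ σ ∈ Icc (-B) B
      have h1 := hlow τ hτ σ
      have h2 := hup τ hτ σ
      have h3 := Int.le_ceil (d * (Real.log T / Real.log 2))
      have h7 : Real.log T / Real.log 2 ≤ d * (Real.log T / Real.log 2) :=
        le_mul_of_one_le_left hL0 (by exact_mod_cast hd1)
      rw [mem_Icc]
      constructor
      · rw [hjj]
        rw [Int.le_floor]
        have h4 : -(d * (Real.log T / Real.log 2)) ≤ Real.log ‖σ (τ : K)‖ / Real.log 2 := by
          rw [le_div_iff₀ hl2]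
          have : -(d * (Real.log T / Real.log 2)) * Real.log 2 = -(d * Real.log T) := by
            field_simp
          rw [this]
          exact h1
        rw [hB]
        push_cast
        linarith
      · have h4 : ((jj τ σ : ℤ) : ℝ) ≤ Real.log ‖σ (τ : K)‖ / Real.log 2 := Int.floor_le _
        have h5 : Real.log ‖σ (τ : K)‖ / Real.log 2 ≤ Real.log T / Real.log 2 :=
          div_le_div_of_nonneg_right h2 hl2.le
        have h6 : ((jj τ σ : ℤ) : ℝ) ≤ (B : ℝ) := by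
          rw [hB]
          push_cast
          linarith
        exact_mod_cast h6
    · exact (Complex.abs_re_le_norm _).trans (hj2 τ hτ σ)
    · exact (Complex.abs_im_le_norm _).trans (hj2 τ hτ σ)
  have hinj : Set.InjOn Φ (s : Set (𝓞 K)) := by
    intro τ1 h1 τ2 h2 heq
    by_contra hne
    have h1' : τ1 ∈ s := h1
    have h2' : τ2 ∈ s := h2
    have hsub : τ1 - τ2 ≠ 0 := sub_ne_zero.2 hne
    have hmemI : τ1 - τ2 ∈ I := I.sub_mem (hs τ1 h1').1 (hs τ2 h2').1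
    have hge : (Ideal.absNorm I : ℝ) ≤ ∏ σ : K →+* ℂ, ‖σ ((τ1 - τ2 : 𝓞 K) : K)‖ := by
      rw [← nrm_prod K (τ1 - τ2)]
      have h3 : Ideal.absNorm I ∣ Ideal.absNorm (Ideal.span {τ1 - τ2}) :=
        Ideal.absNorm_dvd_absNorm_of_le ((Ideal.span_singleton_le_iff_mem _).2 hmemI)
      rw [Ideal.absNorm_span_singleton] at h3
      have h4 : (Algebra.norm ℤ (τ1 - τ2)).natAbs ≠ 0 := by
        rw [Ne, Int.natAbs_eq_zero, Algebra.norm_eq_zero_iff]
        exact hsub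
      exact_mod_cast Nat.le_of_dvd (Nat.pos_of_ne_zero h4) h3
    have hle : ∀ σ : K →+* ℂ, ‖σ ((τ1 - τ2 : 𝓞 K) : K)‖ ≤ 4 / J * ‖σ (τ1 : K)‖ := by
      intro σ
      have h3 : Φ τ1 σ = Φ τ2 σ := congrFun heq σ
      simp only [hΦ, Prod.mk.injEq] at h3
      obtain ⟨h4, h5, h6⟩ := h3
      rw [← h4] at h5 h6
      set j := jj τ1 σ with hj
      have h7 := floor_close h5
      have h8 := floor_close h6
      rw [← sub_mul, abs_mul, abs_of_pos (hsc0 j)] at h7 h8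
      have h9 : σ ((τ1 - τ2 : 𝓞 K) : K) = σ (τ1 : K) - σ (τ2 : K) := by
        rw [← map_sub]
        rfl
      have h10 : ‖σ (τ1 : K) - σ (τ2 : K)‖ ≤ |(σ (τ1 : K) - σ (τ2 : K)).re| +
          |(σ (τ1 : K) - σ (τ2 : K)).im| := Complex.norm_le_abs_re_add_abs_im _
      rw [Complex.sub_re, Complex.sub_im] at h10
      have h11 : ‖σ (τ1 : K) - σ (τ2 : K)‖ * sc j ≤ 2 := by
        have := mul_le_mul_of_nonneg_right h10 (hsc0 j).le
        rw [add_mul] at this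
        linarith
      have h12 : (2 : ℝ) ^ ((j : ℝ) + 1) = 2 * (2 : ℝ) ^ (j : ℝ) := by
        rw [Real.rpow_add (by norm_num), Real.rpow_one]; ring
      have h13 := hj1 τ1 h1' σ
      rw [← hj] at h13
      have h14 : (0 : ℝ) < (2 : ℝ) ^ (j : ℝ) := by positivity
      simp only [hsc] at h11
      rw [h12, mul_div_assoc', div_le_iff₀ (by positivity)] at h11
      rw [h9, div_mul_eq_mul_div, le_div_iff₀ hJ0]
      linarith
    have hprod : ∏ σ : K →+* ℂ, ‖σ ((τ1 - τ2 : 𝓞 K) : K)‖ ≤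
        ∏ σ : K →+* ℂ, (4 / J * ‖σ (τ1 : K)‖) :=
      prod_le_prod (fun _ _ => norm_nonneg _) fun σ _ => hle σ
    rw [prod_mul_distrib, prod_const, card_univ, ← hd, ← nrm_prod K τ1] at hprod
    have h15 : (4 / (J : ℝ)) ^ d ≤ 4 / J := by
      have h16 : (4 / (J : ℝ)) ≤ 1 := by
        rw [div_le_one hJ0]; linarith
      calc (4 / (J : ℝ)) ^ d ≤ (4 / (J : ℝ)) ^ 1 := pow_le_pow_of_le_one (by positivity) h16 hd1
        _ = 4 / J := pow_one _
    have h17 := (hs τ1 h1').2.2.1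
    have h18 : (4 / (J : ℝ)) ^ d * ((Algebra.norm ℤ τ1).natAbs : ℝ) ≤
        4 / J * (c * (Ideal.absNorm I : ℝ)) :=
      mul_le_mul h15 h17 (Nat.cast_nonneg _) (by positivity)
    have h19 : 4 / J * (c * (Ideal.absNorm I : ℝ)) < Ideal.absNorm I := by
      rw [← mul_assoc, div_mul_eq_mul_div, div_mul_eq_mul_div, div_lt_iff₀ hJ0]
      nlinarith
    linarith
  have hcard : s.card ≤ (Fintype.piFinset (fun _ : K →+* ℂ => S)).card :=
    card_le_card_of_injOn Φ hmap hinj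
  rw [Fintype.card_piFinset, prod_const, card_univ, ← hd] at hcard
  have hSc : (S.card : ℝ) ≤ C' * (2 * J + 1) ^ 2 * T ^ ε' := by
    have h1 : S.card = (2 * B + 1).toNat * ((2 * J + 1) * (2 * J + 1)) := by
      rw [hS, card_product, card_product, Int.card_Icc, Int.card_Icc]
      congr 1
      · congr 1; ring
      · congr 1 <;> omega
    have h2 : (((2 * B + 1).toNat : ℕ) : ℝ) = 2 * B + 1 := by
      have h3 : (((2 * B + 1).toNat : ℤ)) = 2 * B + 1 := Int.toNat_of_nonneg (by omega)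
      exact_mod_cast h3
    rw [h1]
    push_cast
    rw [h2]
    have h4 : (B : ℝ) ≤ d * (Real.log T / Real.log 2) + 2 := by
      rw [hB]
      push_cast
      have := Int.ceil_lt_add_one (d * (Real.log T / Real.log 2))
      linarith
    have h5 : Real.log T ≤ T ^ ε' / ε' := Real.log_le_rpow_div hT0.le hε'0
    have h6 : 1 ≤ T ^ ε' := Real.one_le_rpow hT hε'0.le
    have h7 : (2 * (B : ℝ) + 1) ≤ C' * T ^ ε' := by
      have h8 : d * (Real.log T / Real.log 2) ≤ d * (T ^ ε' / ε' / Real.log 2) :=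
        mul_le_mul_of_nonneg_left (div_le_div_of_nonneg_right h5 hl2.le) hd0.le
      have h9 : C' * T ^ ε' = 2 * (d * (T ^ ε' / ε' / Real.log 2)) + 5 * T ^ ε' := by
        rw [hC']
        field_simp
      rw [h9]
      linarith
    calc (2 * (B : ℝ) + 1) * ((2 * J + 1) * (2 * J + 1)) ≤
          C' * T ^ ε' * ((2 * J + 1) * (2 * J + 1)) :=
          mul_le_mul_of_nonneg_right h7 (by positivity)
      _ = C' * (2 * J + 1) ^ 2 * T ^ ε' := by ring
  calc (s.card : ℝ) ≤ (S.card : ℝ) ^ d := by exact_mod_cast hcard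
    _ ≤ (C' * (2 * J + 1) ^ 2 * T ^ ε') ^ d := pow_le_pow_left₀ (Nat.cast_nonneg _) hSc d
    _ = (C' * (2 * J + 1) ^ 2) ^ d * T ^ ε := by
        rw [mul_pow, ← Real.rpow_natCast (T ^ ε') d, ← Real.rpow_mul hT0.le]
        congr 2
        rw [hε']
        field_simp

end Pool.Agent.W230.CF
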